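import Pool.Agent.W2helper81.BY.Stm

/-!
# Project BY (helper81): piece ISO
-/

set_option autoImplicit false

namespace Pool.Agent.W2helper51.BY

open Polynomial
open Pool.Agent.W2helper81.BY

attribute [local instance] Polynomial.algebra in
theorem ISO_ok : P_ISO := by
  intro k M _ _ _ _ g hg h h₀ j hh
  have hloc : IsLocalization.Away (C g : M[X]) (Localization.Away g)[X] := by
    have h1 := Polynomial.isLocalization (Submonoid.powers g) (Localization.Away g)
    rwa [Submonoid.map_powers] at h1
  have halg : ∀ p : M[X], algebraMap M[X] (Localization.Away g)[X] p =
      p.map (algebraMap M (Localization.Away g)) := fun p => rfl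
  have : IsScalarTower M[X] (Localization.Away g)[X] (Localization.Away h) := inferInstance
  have hass : Associated (algebraMap M[X] (Localization.Away g)[X] h₀) h := by
    rw [halg, hh]
    have hu : IsUnit ((C (algebraMap M (Localization.Away g) g) : (Localization.Away g)[X]) ^ j) :=
      ((IsLocalization.Away.algebraMap_isUnit g).map C).pow j
    exact (associated_isUnit_mul_left_iff hu).2 (Associated.refl h)
  have hmain : IsLocalization.Away (C g * h₀) (Localization.Away h) :=
    IsLocalization.Away.mul_of_associated (S := (Localization.Away g)[X]) (C g) h₀ h hass
  have : IsScalarTower k M[X] (Localization.Away g)[X] := by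
    refine IsScalarTower.of_algebraMap_eq fun x => ?_
    rw [halg, Polynomial.algebraMap_apply, Polynomial.algebraMap_apply, map_C,
      ← IsScalarTower.algebraMap_apply]
  have : IsScalarTower k M[X] (Localization.Away h) := inferInstance
  have e : Localization.Away h ≃ₐ[M[X]] Localization.Away (C g * h₀) :=
    IsLocalization.algEquiv (Submonoid.powers (C g * h₀)) _ _
  exact ⟨e.restrictScalars k⟩

end Pool.Agent.W2helper51.BY
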